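import Pool.Agent.MNT.StmtsT

set_option autoImplicit false

/-!
# MNT, row LKS: the children in a laminar family are disjoint
-/

namespace Pool.Agent.MNT.H62

open scoped Classical

theorem kid_disj {P : Type} [Fintype P] [DecidableEq P] (Λ : Lam P) {c s s' : Finset P}
    (h : Λ.Kid c s) (h' : Λ.Kid c s') (hne : s ≠ s') : Disjoint s s' := by
  rcases Λ.lam s h.1 s' h'.1 with h1 | h1 | h1
  · exact absurd (h.2.2 s' h'.1 (lt_of_le_of_ne h1 hne)) (fun h2 => h'.2.1.2 h2)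
  · exact absurd (h'.2.2 s h.1 (lt_of_le_of_ne h1 hne.symm)) (fun h2 => h.2.1.2 h2)
  · exact h1

theorem lks : LksStmt := by
  intro P _ _ Λ A c hc
  have hd : ∀ s ∈ Λ.V.filter (fun s => Λ.Kid c s), ∀ s' ∈ Λ.V.filter (fun s => Λ.Kid c s),
      s ≠ s' → Disjoint (s ∩ A) (s' ∩ A) := by
    intro s hs s' hs' hne
    exact (kid_disj Λ (Finset.mem_filter.1 hs).2 (Finset.mem_filter.1 hs').2 hne).mono
      Finset.inter_subset_left Finset.inter_subset_left
  have he : ∑ s ∈ Λ.V.filter (fun s => Λ.Kid c s), (s ∩ A).card =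
      ((Λ.V.filter (fun s => Λ.Kid c s)).biUnion fun s => s ∩ A).card :=
    (Finset.card_biUnion hd).symm
  have hsub : ((Λ.V.filter (fun s => Λ.Kid c s)).biUnion fun s => s ∩ A) ⊆ c ∩ A := by
    intro x hx
    obtain ⟨s, hs, hx⟩ := Finset.mem_biUnion.1 hx
    rw [Finset.mem_inter] at hx ⊢
    exact ⟨(Finset.mem_filter.1 hs).2.2.1.1 hx.1, hx.2⟩
  refine ⟨?_, fun hall => ?_⟩
  · rw [he]
    exact Finset.card_le_card hsub
  · rw [he]
    congr 1
    apply Finset.Subset.antisymm hsub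
    intro x hx
    obtain ⟨s, hs, hxs⟩ := hall x hx
    exact Finset.mem_biUnion.2 ⟨s, Finset.mem_filter.2 ⟨hs.1, hs⟩,
      Finset.mem_inter.2 ⟨hxs, (Finset.mem_inter.1 hx).2⟩⟩

end Pool.Agent.MNT.H62
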